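import Pool.Agent.H144Z.Net.Est

set_option autoImplicit false

noncomputable section

namespace Pool.Agent.H144Z.Net

/-- side of the chain vertex number `i` -/
def sd (i : ℕ) : Bool := decide (i % 2 = 0)

theorem sg_succ (i : ℕ) : sg (sd (i + 1)) = - sg (sd i) := by
  unfold sg sd
  rcases Nat.mod_two_eq_zero_or_one i with h | h
  · have : (i + 1) % 2 = 1 := by omega
    simp [h, this]
  · have : (i + 1) % 2 = 0 := by omega
    simp [h, this]

theorem sg_pred {i : ℕ} (h : 0 < i) : sg (sd (i - 1)) = - sg (sd i) := by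
  have := sg_succ (i - 1)
  rw [show i - 1 + 1 = i by omega] at this
  linarith

theorem sd_add_two (i : ℕ) : sd (i + 2) = sd i := by
  unfold sd
  simp

theorem sd_eq_iff {i j : ℕ} : sd i = sd j ↔ i % 2 = j % 2 := by
  unfold sd
  rcases Nat.mod_two_eq_zero_or_one i with h | h <;>
    rcases Nat.mod_two_eq_zero_or_one j with h' | h' <;> simp [h, h']

/-- Newton correction -/
def nw (z : ℂ) : ℂ := ⟨4 / 3 * z.re, 4 / 9 * z.im⟩

variable {δ : ℝ}

theorem Good.step (G : Good δ) (b : Bool) (a : Fin 3 → ℂ)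
    (ha : ∀ k, ‖a k - (sg b : ℂ) * (1 + om k)‖ ≤ δ) {p q r p' q' r' : ℂ}
    (hp : ‖p - sg b‖ ≤ δ) (hq : ‖q - (-(sg b : ℂ))‖ ≤ δ) (hr : ‖r - (-(sg b : ℂ))‖ ≤ δ)
    (hp' : ‖p' - sg b‖ ≤ δ) (hq' : ‖q' - (-(sg b : ℂ))‖ ≤ δ) (hr' : ‖r' - (-(sg b : ℂ))‖ ≤ δ)
    {D : ℝ} (h1 : ‖p - p'‖ ≤ D) (h2 : ‖q - q'‖ ≤ D) (h3 : ‖r - r'‖ ≤ D) :
    |(p + nw (Phi a p q r) - (p' + nw (Phi a p' q' r'))).re| ≤ 1 / 100 * D ∧
      |(p + nw (Phi a p q r) - (p' + nw (Phi a p' q' r'))).im| ≤ 45 / 100 * D := by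
  obtain ⟨k1, k2⟩ := G.key b a ha hp hq hr hp' hq' hr'
  have b1 := Complex.abs_im_le_norm (q - q')
  have b2 := Complex.abs_im_le_norm (r - r')
  have b3 := norm_nonneg (p - p')
  simp only [nw, Complex.sub_re, Complex.add_re, Complex.sub_im, Complex.add_im] at *
  rw [abs_le] at *
  rw [abs_le]
  refine ⟨⟨?_, ?_⟩, ⟨?_, ?_⟩⟩ <;> linarith [k1.1, k1.2, k2.1, k2.2, b1.1, b1.2, b2.1, b2.2]

theorem Good.loc (G : Good δ) (b : Bool) (a : Fin 3 → ℂ)
    (ha : ∀ k, ‖a k - (sg b : ℂ) * (1 + om k)‖ ≤ δ / 200) {p q r : ℂ}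
    (hp : ‖p - sg b‖ ≤ δ) (hq : ‖q - (-(sg b : ℂ))‖ ≤ δ) (hr : ‖r - (-(sg b : ℂ))‖ ≤ δ) :
    |(p + nw (Phi a p q r) - sg b).re| ≤ 7 / 100 * δ ∧
      |(p + nw (Phi a p q r) - sg b).im| ≤ 47 / 100 * δ := by
  have hδ := G.pos
  obtain ⟨k1, k2⟩ := G.step b a (fun k => (ha k).trans (by linarith)) hp hq hr
    (p' := sg b) (q' := -(sg b : ℂ)) (r' := -(sg b : ℂ)) (by simp [hδ.le]) (by simp [hδ.le])
    (by simp [hδ.le]) hp hq hr
  have h0 := G.base b a (by linarith) ha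
  have b1 := (Complex.abs_re_le_norm _).trans h0
  have b2 := (Complex.abs_im_le_norm _).trans h0
  simp only [nw, Complex.sub_re, Complex.add_re, Complex.sub_im, Complex.add_im] at *
  rw [abs_le] at *
  rw [abs_le]
  refine ⟨⟨?_, ?_⟩, ⟨?_, ?_⟩⟩ <;> linarith [k1.1, k1.2, k2.1, k2.2, b1.1, b1.2, b2.1, b2.2]

/-- boundary data close to the base configuration -/
structure Bd (δ : ℝ) where
  a : Bool → Fin 3 → ℂ
  t1 : ℂ
  t2 : ℂ
  ha : ∀ b k, ‖a b k - (sg b : ℂ) * (1 + om k)‖ ≤ δ / 200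
  h1 : ‖t1 - ⟨1, 9 / 10 * δ⟩‖ ≤ δ / 200
  h2 : ‖t2 - ⟨1, -(9 / 10 * δ)⟩‖ ≤ δ / 200

theorem Bd.t1_near (G : Good δ) (B : Bd δ) : ‖B.t1 - 1‖ ≤ δ := by
  have hδ := G.pos
  have b1 := (Complex.abs_re_le_norm _).trans B.h1
  have b2 := (Complex.abs_im_le_norm _).trans B.h1
  refine (Complex.norm_le_abs_re_add_abs_im _).trans ?_
  simp only [Complex.sub_re, Complex.sub_im, Complex.one_re, Complex.one_im] at *
  rw [abs_le] at b2
  have : |B.t1.im - 0| ≤ 95 / 100 * δ := by rw [abs_le]; constructor <;> linarith [b2.1, b2.2]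
  linarith

theorem Bd.t2_near (G : Good δ) (B : Bd δ) : ‖B.t2 - 1‖ ≤ δ := by
  have hδ := G.pos
  have b1 := (Complex.abs_re_le_norm _).trans B.h2
  have b2 := (Complex.abs_im_le_norm _).trans B.h2
  refine (Complex.norm_le_abs_re_add_abs_im _).trans ?_
  simp only [Complex.sub_re, Complex.sub_im, Complex.one_re, Complex.one_im] at *
  rw [abs_le] at b2
  have : |B.t2.im - 0| ≤ 95 / 100 * δ := by rw [abs_le]; constructor <;> linarith [b2.1, b2.2]
  linarith

/-- extension of a finite sequence -/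
def ext {L : ℕ} (x : Fin (L + 1) → ℂ) (n : ℕ) : ℂ := if h : n < L + 1 then x ⟨n, h⟩ else 0

theorem ext_val {L : ℕ} (x : Fin (L + 1) → ℂ) (i : Fin (L + 1)) : ext x i = x i := by
  simp [ext, i.2]

theorem ext_sub {L : ℕ} (x y : Fin (L + 1) → ℂ) (n : ℕ) : ‖ext x n - ext y n‖ ≤ ‖x - y‖ := by
  unfold ext
  split_ifs with h
  · exact norm_le_pi_norm (x - y) ⟨n, h⟩
  · simp

theorem exists_chain (G : Good δ) (B : Bd δ) (L : ℕ) (hL : L % 2 = 0) (hL0 : 0 < L) :
    ∃ p : ℕ → ℂ, p 0 = B.t1 ∧ p L = B.t2 ∧ (∀ i ≤ L, ‖p i - sg (sd i)‖ ≤ δ) ∧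
      ∀ i, 0 < i → i < L → Phi (B.a (sd i)) (p i) (p (i - 1)) (p (i + 1)) = 0 := by
  have hδ := G.pos
  let c : Fin (L + 1) → ℂ := fun i => sg (sd i)
  let Ψ : (Fin (L + 1) → ℂ) → (Fin (L + 1) → ℂ) := fun x i =>
    if i.val = 0 then B.t1 else if i.val = L then B.t2 else
      ext x i + nw (Phi (B.a (sd i)) (ext x i) (ext x (i - 1)) (ext x (i + 1)))
  have hball : ∀ x ∈ Metric.closedBall c δ, ∀ n ≤ L, ‖ext x n - sg (sd n)‖ ≤ δ := by
    intro x hx n hn
    rw [Metric.mem_closedBall, dist_eq_norm] at hx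
    have := (norm_le_pi_norm (x - c) ⟨n, by omega⟩).trans hx
    simpa [ext, show n < L + 1 by omega, c] using this
  have hnb : ∀ x ∈ Metric.closedBall c δ, ∀ i : ℕ, 0 < i → i < L →
      ‖ext x i - sg (sd i)‖ ≤ δ ∧ ‖ext x (i - 1) - (-(sg (sd i) : ℂ))‖ ≤ δ ∧
        ‖ext x (i + 1) - (-(sg (sd i) : ℂ))‖ ≤ δ := by
    intro x hx i h0 h1
    refine ⟨hball x hx i h1.le, ?_, ?_⟩
    · have := hball x hx (i - 1) (by omega)
      rwa [sg_pred h0, Complex.ofReal_neg] at this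
    · have := hball x hx (i + 1) (by omega)
      rwa [sg_succ, Complex.ofReal_neg] at this
  have hmaps : Set.MapsTo Ψ (Metric.closedBall c δ) (Metric.closedBall c δ) := by
    intro x hx
    rw [Metric.mem_closedBall, dist_eq_norm, pi_norm_le_iff_of_nonneg hδ.le]
    intro i
    simp only [Pi.sub_apply, Ψ, c]
    split_ifs with h0 h1
    · rw [h0]
      simpa [sd, sg] using B.t1_near G
    · rw [h1]
      simpa [sd, sg, hL] using B.t2_near G
    · obtain ⟨n1, n2, n3⟩ := hnb x hx i (by omega) (by omega)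
      obtain ⟨k1, k2⟩ := G.loc (sd i) (B.a (sd i)) (B.ha _) n1 n2 n3
      refine (Complex.norm_le_abs_re_add_abs_im _).trans ?_
      linarith
  have hcon : ContractingWith (1 / 2) (hmaps.restrict Ψ _ _) := by
    refine ⟨by norm_num, LipschitzWith.of_dist_le_mul ?_⟩
    rintro ⟨x, hx⟩ ⟨y, hy⟩
    change dist (Ψ x) (Ψ y) ≤ _ * dist x y
    rw [dist_eq_norm, dist_eq_norm, pi_norm_le_iff_of_nonneg (by positivity)]
    intro i
    simp only [Pi.sub_apply, Ψ]
    split_ifs with h0 h1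
    · simp only [sub_self, norm_zero]; positivity
    · simp only [sub_self, norm_zero]; positivity
    · obtain ⟨n1, n2, n3⟩ := hnb x hx i (by omega) (by omega)
      obtain ⟨m1, m2, m3⟩ := hnb y hy i (by omega) (by omega)
      obtain ⟨k1, k2⟩ := G.step (sd i) (B.a (sd i)) (fun k => (B.ha _ k).trans (by linarith))
        n1 n2 n3 m1 m2 m3 (ext_sub x y _) (ext_sub x y _) (ext_sub x y _)
      refine (Complex.norm_le_abs_re_add_abs_im _).trans ?_
      have := norm_nonneg (x - y)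
      push_cast
      linarith
  obtain ⟨x, hx, hfix, -⟩ := hcon.exists_fixedPoint' Metric.isClosed_closedBall.isComplete hmaps
    (Metric.mem_closedBall_self hδ.le) (edist_ne_top _ _)
  have hf : ∀ i : Fin (L + 1), Ψ x i = x i := fun i => congrFun hfix i
  refine ⟨ext x, ?_, ?_, hball x hx, ?_⟩
  · have := hf ⟨0, by omega⟩
    simp only [Ψ, if_true] at this
    simpa [ext] using this.symm
  · have := hf ⟨L, by omega⟩
    simp only [Ψ, if_true, if_neg hL0.ne'] at this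
    simpa [ext] using this.symm
  · intro i h0 h1
    have := hf ⟨i, by omega⟩
    simp only [Ψ, if_neg h0.ne', if_neg h1.ne] at this
    have e1 : x ⟨i, by omega⟩ = ext x i := (ext_val x ⟨i, by omega⟩).symm
    rw [e1, add_eq_left] at this
    have r1 := congrArg Complex.re this
    have r2 := congrArg Complex.im this
    simp only [nw, Complex.zero_re, Complex.zero_im] at r1 r2
    apply Complex.ext
    · simp only [Complex.zero_re]; linarith
    · simp only [Complex.zero_im]; linarith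

theorem loc1 {u w u1 w1 u2 w2 n n1 n2 m : ℝ} (hn : n ≤ |w| + |u|) (hn1 : n1 ≤ |w1| + |u1|)
    (hn2 : n2 ≤ |w2| + |u2|)
    (k1 : |3 / 4 * w| ≤ 1 / 1000 * (5 * n + n1 + n2))
    (k2 : |9 / 4 * u - u1 / 2 - u2 / 2| ≤ 1 / 1000 * (5 * n + n1 + n2))
    (hm : m ≤ 0) (g1 : m ≤ -u1 - 2 * |w1|) (g2 : m ≤ -u2 - 2 * |w2|) :
    m / 2 + (-u1 - m) / 10 ≤ -u - 2 * |w| + (-m) / 10 := by
  have a0 := abs_nonneg w1
  have a1 := abs_nonneg w2
  rw [abs_mul, abs_of_pos (show (0 : ℝ) < 3 / 4 by norm_num)] at k1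
  rw [abs_le] at k2
  rcases abs_cases u with h | h <;> rcases abs_cases u1 with h1 | h1 <;>
    rcases abs_cases u2 with h2 | h2 <;> linarith [k2.1, k2.2, h.1, h.2, h1.1, h1.2, h2.1, h2.2]

/-- the downward cone -/
def Cone (d : ℂ) : Prop := 2 * |d.re| ≤ -d.im ∧ d.im < 0

theorem Cone.add {d d' : ℂ} (h : Cone d) (h' : Cone d') : Cone (d + d') := by
  refine ⟨?_, ?_⟩
  · simp only [Complex.add_re, Complex.add_im]
    linarith [abs_add_le d.re d'.re, h.1, h'.1]
  · simp only [Complex.add_im]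
    linarith [h.2, h'.2]

theorem cone_chain (d : ℕ → ℂ) (K : ℕ) (h0 : Cone (d 0)) (hK : Cone (d K))
    (h : ∀ i, 0 < i → i < K →
      |3 / 4 * (d i).re| ≤ 1 / 1000 * (5 * ‖d i‖ + ‖d (i - 1)‖ + ‖d (i + 1)‖) ∧
      |9 / 4 * (d i).im - (d (i - 1)).im / 2 - (d (i + 1)).im / 2| ≤
        1 / 1000 * (5 * ‖d i‖ + ‖d (i - 1)‖ + ‖d (i + 1)‖)) :
    ∀ i ≤ K, Cone (d i) := by
  have H1 : ∀ i ≤ K, 0 ≤ -(d i).im - 2 * |(d i).re| := by
    obtain ⟨i0, hi0, hmin⟩ := Finset.exists_min_image (Finset.range (K + 1))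
      (fun i => -(d i).im - 2 * |(d i).re|) ⟨0, by simp⟩
    rw [Finset.mem_range] at hi0
    have : 0 ≤ -(d i0).im - 2 * |(d i0).re| := by
      by_contra hc
      push Not at hc
      have a0 : i0 ≠ 0 := by
        rintro rfl
        linarith [h0.1]
      have a1 : i0 ≠ K := by
        rintro rfl
        linarith [hK.1]
      obtain ⟨k1, k2⟩ := h i0 (by omega) (by omega)
      have g1 := hmin (i0 - 1) (Finset.mem_range.2 (by omega))
      have g2 := hmin (i0 + 1) (Finset.mem_range.2 (by omega))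
      have := loc1 (Complex.norm_le_abs_re_add_abs_im _) (Complex.norm_le_abs_re_add_abs_im _)
        (Complex.norm_le_abs_re_add_abs_im _) k1 k2 hc.le g1 g2
      have a2 := abs_nonneg (d (i0 - 1)).re
      linarith
    intro i hi
    exact this.trans (hmin i (Finset.mem_range.2 (by omega)))
  intro i
  induction i with
  | zero => exact fun _ => h0
  | succ i ih =>
    intro hi
    by_cases e1 : i + 1 = K
    · rw [e1]; exact hK
    · obtain ⟨k1, k2⟩ := h (i + 1) (by omega) (by omega)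
      have g1 := H1 (i + 1 - 1) (by omega)
      have g2 := H1 (i + 1 + 1) (by omega)
      have := loc1 (Complex.norm_le_abs_re_add_abs_im _) (Complex.norm_le_abs_re_add_abs_im _)
        (Complex.norm_le_abs_re_add_abs_im _) k1 k2 le_rfl g1 g2
      have a2 := abs_nonneg (d (i + 1)).re
      have a3 := (ih (by omega)).2
      rw [show i + 1 - 1 = i by omega] at this
      constructor <;> linarith

theorem chain_full (G : Good δ) (B : Bd δ) (L : ℕ) (hL : L % 2 = 0) (hL0 : 4 ≤ L) :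
    ∃ p : ℕ → ℂ, p 0 = B.t1 ∧ p L = B.t2 ∧ (∀ i ≤ L, ‖p i - sg (sd i)‖ ≤ δ) ∧
      (∀ i, 0 < i → i < L → Phi (B.a (sd i)) (p i) (p (i - 1)) (p (i + 1)) = 0) ∧
      ∀ i j, i < j → j ≤ L → i % 2 = j % 2 → Cone (p j - p i) := by
  obtain ⟨p, p0, pL, hb, hf⟩ := exists_chain G B L hL (by omega)
  refine ⟨p, p0, pL, hb, hf, ?_⟩
  have hδ := G.pos
  have hnb : ∀ i : ℕ, 0 < i → i < L →
      ‖p i - sg (sd i)‖ ≤ δ ∧ ‖p (i - 1) - (-(sg (sd i) : ℂ))‖ ≤ δ ∧
        ‖p (i + 1) - (-(sg (sd i) : ℂ))‖ ≤ δ := by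
    intro i h0 h1
    refine ⟨hb i h1.le, ?_, ?_⟩
    · have := hb (i - 1) (by omega)
      rwa [sg_pred h0, Complex.ofReal_neg] at this
    · have := hb (i + 1) (by omega)
      rwa [sg_succ, Complex.ofReal_neg] at this
  have hloc : ∀ i : ℕ, 0 < i → i < L → i % 2 = 0 →
      |(p i).re - 1| ≤ 7 / 100 * δ ∧ |(p i).im| ≤ 47 / 100 * δ := by
    intro i h0 h1 h2
    obtain ⟨n1, n2, n3⟩ := hnb i h0 h1
    have := G.loc (sd i) (B.a (sd i)) (B.ha _) n1 n2 n3
    rw [hf i h0 h1] at this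
    simpa [nw, sd, sg, h2] using this
  have hd : ∀ i ≤ L - 2, Cone (p (i + 2) - p i) := by
    apply cone_chain (fun i => p (i + 2) - p i) (L - 2)
    · obtain ⟨k1, k2⟩ := hloc 2 (by omega) (by omega) (by omega)
      have b1 := (Complex.abs_re_le_norm _).trans B.h1
      have b2 := (Complex.abs_im_le_norm _).trans B.h1
      simp only [Cone, zero_add, p0, Complex.sub_re, Complex.sub_im] at *
      rw [abs_le] at k1 k2 b1 b2
      have : |(p 2).re - B.t1.re| ≤ 1 / 10 * δ := by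
        rw [abs_le]; constructor <;> linarith [k1.1, k1.2, b1.1, b1.2]
      constructor <;> linarith [k2.1, k2.2, b2.1, b2.2]
    · obtain ⟨k1, k2⟩ := hloc (L - 2) (by omega) (by omega) (by omega)
      have b1 := (Complex.abs_re_le_norm _).trans B.h2
      have b2 := (Complex.abs_im_le_norm _).trans B.h2
      simp only [Cone, show L - 2 + 2 = L by omega, pL, Complex.sub_re, Complex.sub_im] at *
      rw [abs_le] at k1 k2 b1 b2
      have : |B.t2.re - (p (L - 2)).re| ≤ 1 / 10 * δ := by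
        rw [abs_le]; constructor <;> linarith [k1.1, k1.2, b1.1, b1.2]
      constructor <;> linarith [k2.1, k2.2, b2.1, b2.2]
    · intro i h0 h1
      obtain ⟨n1, n2, n3⟩ := hnb i h0 (by omega)
      obtain ⟨m1, m2, m3⟩ := hnb (i + 2) (by omega) (by omega)
      rw [sd_add_two] at m1 m2 m3
      have k := G.key (sd i) (B.a (sd i)) (fun k => (B.ha _ k).trans (by linarith))
        m1 m2 m3 n1 n2 n3
      have f1 := hf i h0 (by omega)
      have f2 := hf (i + 2) (by omega) (by omega)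
      rw [sd_add_two] at f2
      rw [f1, f2] at k
      rw [show i - 1 + 2 = i + 2 - 1 by omega, show i + 1 + 2 = i + 2 + 1 by omega]
      simpa using k
  have hk : ∀ k i, i + 2 * (k + 1) ≤ L → Cone (p (i + 2 * (k + 1)) - p i) := by
    intro k
    induction k with
    | zero => intro i hi; exact hd i (by omega)
    | succ k ih =>
      intro i hi
      have a1 := ih i (by omega)
      have a2 := hd (i + 2 * (k + 1)) (by omega)
      have := a2.add a1
      rw [show i + 2 * (k + 1 + 1) = i + 2 * (k + 1) + 2 by ring]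
      simpa using this
  intro i j hij hj hpar
  have := hk ((j - i) / 2 - 1) i (by omega)
  rwa [show i + 2 * ((j - i) / 2 - 1 + 1) = j by omega] at this

end Pool.Agent.H144Z.Net
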