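import Mathlib

set_option autoImplicit false

noncomputable section
open scoped Classical

namespace Pool.Agent.H144Z.Net

/-- A geodesic net in the Euclidean plane (identified with the complex numbers): a finite graph
whose vertices are points of the plane and whose edges are straight segments of weight one. -/
structure GeodesicNet where
  /-- the vertices -/
  V : Finset ℂ
  /-- `Adj a b` means that the segment `ab` is an edge -/
  Adj : ℂ → ℂ → Prop
  symm : ∀ a b, Adj a b → Adj b a
  /-- edges join two distinct vertices -/
  edge_ends : ∀ a b, Adj a b → a ∈ V ∧ b ∈ V ∧ a ≠ b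
  /-- two distinct edges meet only at a common endpoint -/
  edges_meet : ∀ a b c d, Adj a b → Adj c d → s(a, b) ≠ s(c, d) →
    ∀ z ∈ segment ℝ a b, z ∈ segment ℝ c d → (z = a ∨ z = b) ∧ (z = c ∨ z = d)
  /-- no vertex lies in the interior of an edge -/
  no_vertex_inside : ∀ a b, Adj a b → ∀ c ∈ V, c ∉ openSegment ℝ a b

namespace GeodesicNet

variable (G : GeodesicNet)

/-- the neighbours of `v` -/
def neighbors (v : ℂ) : Finset ℂ := G.V.filter (fun w => G.Adj v w)

/-- the imbalance vector: the sum of the unit vectors along the edges at `v` -/
def imb (v : ℂ) : ℂ := ∑ w ∈ G.neighbors v, (w - v) / (‖w - v‖ : ℂ)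

/-- balanced vertices have zero imbalance and degree at least three -/
def IsBalanced (v : ℂ) : Prop := G.imb v = 0 ∧ 3 ≤ (G.neighbors v).card

/-- the set of balanced vertices -/
def balancedVertices : Finset ℂ := G.V.filter (fun v => G.IsBalanced v)

/-- the set of unbalanced vertices: all other vertices -/
def unbalancedVertices : Finset ℂ := G.V.filter (fun v => ¬ G.IsBalanced v)

end GeodesicNet

/-- `S` is the exact set of unbalanced vertices of geodesic nets with arbitrarily many balanced
vertices. -/
def UnboundedlyFillable (S : Finset ℂ) : Prop :=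
  ∀ N : ℕ, ∃ G : GeodesicNet, G.unbalancedVertices = S ∧ N < G.balancedVertices.card

end Pool.Agent.H144Z.Net
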