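import Pool.Agent.H144Z.Net.Chain
import Pool.Agent.Helper544.Planar

set_option autoImplicit false

noncomputable section

namespace Pool.Agent.H144Z.Net

open Pool.Agent.Helper544.Planar

/-- cross product -/
def cross (u v : ℂ) : ℝ := u.re * v.im - u.im * v.re

theorem col {a b c d p q : ℂ} (hpq : p ≠ q) (h1 : p ∈ segment ℝ a b) (h2 : p ∈ segment ℝ c d)
    (h3 : q ∈ segment ℝ a b) (h4 : q ∈ segment ℝ c d) :
    cross (c - a) (b - a) = 0 ∧ cross (d - a) (b - a) = 0 := by
  obtain ⟨s, -, -, e1⟩ := mem_seg.1 h1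
  obtain ⟨r, -, -, e2⟩ := mem_seg.1 h2
  obtain ⟨s', -, -, e3⟩ := mem_seg.1 h3
  obtain ⟨r', -, -, e4⟩ := mem_seg.1 h4
  have hr : r - r' ≠ 0 := by
    intro h
    apply hpq
    rw [e2, e4, show r = r' by linarith]
  have x1 := congrArg Complex.re (e1.symm.trans e2)
  have y1 := congrArg Complex.im (e1.symm.trans e2)
  have x2 := congrArg Complex.re (e3.symm.trans e4)
  have y2 := congrArg Complex.im (e3.symm.trans e4)
  simp only [pt, Complex.add_re, Complex.add_im, Complex.re_ofReal_mul, Complex.im_ofReal_mul,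
    Complex.sub_re, Complex.sub_im] at x1 y1 x2 y2
  have k : (d.re - c.re) * (b.im - a.im) - (d.im - c.im) * (b.re - a.re) = 0 := by
    apply mul_left_cancel₀ hr
    linear_combination (-(b.im - a.im)) * x1 + (b.im - a.im) * x2 + (b.re - a.re) * y1 -
      (b.re - a.re) * y2
  simp only [cross, Complex.sub_re, Complex.sub_im]
  constructor
  · linear_combination (-(b.im - a.im)) * x1 + (b.re - a.re) * y1 - r * k
  · linear_combination (-(b.im - a.im)) * x1 + (b.re - a.re) * y1 + (1 - r) * k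

/-- directions far from vertical -/
def Flat (v : ℂ) : Prop := |v.im| < 2 * |v.re|

theorem cone_flat {d v : ℂ} (h : Cone d) (hv : Flat v) : cross d v ≠ 0 := by
  intro e1
  unfold cross at e1
  have e2 : |d.re| * |v.im| = |d.im| * |v.re| := by
    rw [← abs_mul, ← abs_mul]; congr 1; linarith
  rw [abs_of_neg h.2] at e2
  have := h.1
  have := h.2
  unfold Flat at hv
  have := abs_nonneg d.re
  have := abs_nonneg v.im
  nlinarith

theorem sg_cases (b : Bool) : sg b = 1 ∨ sg b = -1 := by cases b <;> simp [sg]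

theorem om_re (k : Fin 3) : (om k).re = 1 := by fin_cases k <;> simp [om]

theorem om_im (k : Fin 3) : |(om k).im| ≤ 18 / 10 := by
  have := s3lo
  have := s3hi
  rw [abs_le]
  fin_cases k <;> simp [om] <;> (try constructor) <;> linarith

theorem om_im_ne {k k' : Fin 3} (h : k ≠ k') : 17 / 10 ≤ |(om k).im - (om k').im| := by
  have := s3lo
  have := s3hi
  rw [le_abs]
  fin_cases k <;> fin_cases k' <;> simp [om] at h ⊢ <;> first | (left; linarith) | (right; linarith)

/-- a solved chain -/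
structure Sol {δ : ℝ} (B : Bd δ) (L : ℕ) where
  p : ℕ → ℂ
  p0 : p 0 = B.t1
  pL : p L = B.t2
  near : ∀ i ≤ L, ‖p i - sg (sd i)‖ ≤ δ
  bal : ∀ i, 0 < i → i < L → Phi (B.a (sd i)) (p i) (p (i - 1)) (p (i + 1)) = 0
  cone : ∀ i j, i < j → j ≤ L → i % 2 = j % 2 → Cone (p j - p i)

variable {δ : ℝ} {B : Bd δ} {L : ℕ}

theorem Bd.a_re (G : Good δ) (B : Bd δ) (b : Bool) (k : Fin 3) :
    |(B.a b k).re - 2 * sg b| ≤ 1 / 100 := by
  have := (Complex.abs_re_le_norm _).trans (B.ha b k)
  simp only [Complex.sub_re, Complex.re_ofReal_mul, Complex.add_re, Complex.one_re, om_re] at this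
  have h1 := G.small
  have h2 := G.pos
  rw [show sg b * (1 + 1) = 2 * sg b by ring] at this
  linarith

theorem Bd.a_im (G : Good δ) (B : Bd δ) (b : Bool) (k : Fin 3) :
    |(B.a b k).im - sg b * (om k).im| ≤ 1 / 100 := by
  have := (Complex.abs_im_le_norm _).trans (B.ha b k)
  simp only [Complex.sub_im, Complex.im_ofReal_mul, Complex.add_im, Complex.one_im, zero_add] at this
  have h1 := G.small
  have h2 := G.pos
  linarith

namespace Sol

variable (G : Good δ) (S : Sol B L)
include G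

theorem p_re {i : ℕ} (hi : i ≤ L) : |(S.p i).re - sg (sd i)| ≤ 1 / 100 := by
  have := (Complex.abs_re_le_norm _).trans (S.near i hi)
  simp only [Complex.sub_re, Complex.ofReal_re] at this
  linarith [G.small]

theorem p_im {i : ℕ} (hi : i ≤ L) : |(S.p i).im| ≤ 1 / 100 := by
  have := (Complex.abs_im_le_norm _).trans (S.near i hi)
  simp only [Complex.sub_im, Complex.ofReal_im, sub_zero] at this
  linarith [G.small]

omit G in
theorem same {i j : ℕ} (hi : i ≤ L) (hj : j ≤ L) (h : i % 2 = j % 2) {v : ℂ} (hv : Flat v)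
    (hc : cross (S.p j - S.p i) v = 0) : i = j := by
  rcases lt_trichotomy i j with h1 | h1 | h1
  · exact absurd hc (cone_flat (S.cone i j h1 hj h) hv)
  · exact h1
  · refine absurd ?_ (cone_flat (S.cone j i h1 hi h.symm) hv)
    simp only [cross, Complex.sub_re, Complex.sub_im] at hc ⊢
    linarith

theorem flat_path {i : ℕ} (hi : i < L) : Flat (S.p (i + 1) - S.p i) := by
  have a1 := S.p_re G hi.le
  have a2 := S.p_re G (show i + 1 ≤ L from hi)
  have a3 := S.p_im G hi.le
  have a4 := S.p_im G (show i + 1 ≤ L from hi)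
  rw [sg_succ] at a2
  unfold Flat
  simp only [Complex.sub_re, Complex.sub_im]
  rw [abs_le] at a1 a2 a3 a4
  have : 1 ≤ |(S.p (i + 1)).re - (S.p i).re| := by
    rw [le_abs]
    rcases sg_cases (sd i) with h | h <;> rw [h] at a1 a2
    · right; linarith [a1.1, a2.2]
    · left; linarith [a1.2, a2.1]
  rw [abs_lt]
  constructor <;> linarith [a3.1, a3.2, a4.1, a4.2]

theorem flat_anchor {i : ℕ} (hi : i ≤ L) (k : Fin 3) : Flat (B.a (sd i) k - S.p i) := by
  have a1 := S.p_re G hi
  have a2 := B.a_re G (sd i) k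
  have a3 := S.p_im G hi
  have a4 := B.a_im G (sd i) k
  have a5 := om_im k
  unfold Flat
  simp only [Complex.sub_re, Complex.sub_im]
  rw [abs_le] at a1 a2 a3 a4 a5
  have : 98 / 100 ≤ |(B.a (sd i) k).re - (S.p i).re| := by
    rw [le_abs]
    rcases sg_cases (sd i) with h | h <;> rw [h] at a1 a2
    · left; linarith [a1.2, a2.1]
    · right; linarith [a1.1, a2.2]
  rw [abs_lt]
  rcases sg_cases (sd i) with h | h <;> rw [h] at a4 <;>
    constructor <;> linarith [a3.1, a3.2, a4.1, a4.2, a5.1, a5.2]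

theorem PP {i j : ℕ} (hi : i < L) (hj : j < L) (hij : i ≠ j) {x y : ℂ}
    (h1 : x ∈ segment ℝ (S.p i) (S.p (i + 1))) (h2 : x ∈ segment ℝ (S.p j) (S.p (j + 1)))
    (h3 : y ∈ segment ℝ (S.p i) (S.p (i + 1))) (h4 : y ∈ segment ℝ (S.p j) (S.p (j + 1))) :
    x = y := by
  by_contra hne
  obtain ⟨c1, c2⟩ := col hne h1 h2 h3 h4
  have hf := S.flat_path G hi
  by_cases h : i % 2 = j % 2
  · exact hij (S.same hi.le hj.le h hf c1)
  · have e1 := S.same hi.le (show j + 1 ≤ L from hj) (by omega) hf c2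
    have e2 := S.same (show i + 1 ≤ L from hi) hj.le (by omega) hf (by
      simp only [cross, Complex.sub_re, Complex.sub_im] at c1 ⊢
      linarith)
    omega

omit G in
theorem meet {c a q x : ℂ} {σ : ℝ} (ha : σ * c.re < σ * a.re) (hq : σ * q.re < σ * c.re)
    (h1 : x ∈ segment ℝ c a) (h2 : x ∈ segment ℝ c q) : x = c := by
  obtain ⟨s, s0, -, e1⟩ := mem_seg.1 h1
  obtain ⟨r, r0, -, e2⟩ := mem_seg.1 h2
  have x1 := congrArg Complex.re (e1.symm.trans e2)
  simp only [pt, Complex.add_re, Complex.re_ofReal_mul, Complex.sub_re] at x1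
  have : s * (σ * a.re - σ * c.re) = r * (σ * q.re - σ * c.re) := by linear_combination σ * x1
  have s1 : s = 0 := by
    by_contra h
    have : 0 < s := lt_of_le_of_ne s0 (Ne.symm h)
    nlinarith
  rw [e1, s1, pt_zero]

theorem lt_anchor {i : ℕ} (hi : i ≤ L) (k : Fin 3) :
    sg (sd i) * (S.p i).re < sg (sd i) * (B.a (sd i) k).re := by
  have a1 := S.p_re G hi
  have a2 := B.a_re G (sd i) k
  rw [abs_le] at a1 a2
  rcases sg_cases (sd i) with h | h <;> rw [h] at a1 a2 ⊢ <;> linarith [a1.1, a1.2, a2.1, a2.2]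

theorem lt_other {i j : ℕ} (hi : i ≤ L) (hj : j ≤ L) (h : sg (sd j) = - sg (sd i)) :
    sg (sd i) * (S.p j).re < sg (sd i) * (S.p i).re := by
  have a1 := S.p_re G hi
  have a2 := S.p_re G hj
  rw [h] at a2
  rw [abs_le] at a1 a2
  rcases sg_cases (sd i) with h | h <;> rw [h] at a1 a2 ⊢ <;> linarith [a1.1, a1.2, a2.1, a2.2]

theorem PT {i j : ℕ} (hi : i < L) (hj : j ≤ L) (k : Fin 3) {x y : ℂ}
    (h1 : x ∈ segment ℝ (S.p i) (S.p (i + 1))) (h2 : x ∈ segment ℝ (S.p j) (B.a (sd j) k))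
    (h3 : y ∈ segment ℝ (S.p i) (S.p (i + 1))) (h4 : y ∈ segment ℝ (S.p j) (B.a (sd j) k)) :
    x = y := by
  by_contra hne
  obtain ⟨c1, -⟩ := col hne h1 h2 h3 h4
  have hf := S.flat_path G hi
  by_cases h : i % 2 = j % 2
  · have e1 := S.same hi.le hj h hf c1
    subst e1
    have l1 := S.lt_anchor G hj k
    have l2 := S.lt_other G hj (show i + 1 ≤ L from hi) (sg_succ i)
    exact hne ((meet l1 l2 h2 h1).trans (meet l1 l2 h4 h3).symm)
  · have e2 := S.same (show i + 1 ≤ L from hi) hj (by omega) hf (by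
      simp only [cross, Complex.sub_re, Complex.sub_im] at c1 ⊢
      linarith)
    subst e2
    have l1 := S.lt_anchor G hj k
    have l2 := S.lt_other G hj hi.le (by rw [sg_succ]; ring)
    rw [segment_symm] at h1 h3
    exact hne ((meet l1 l2 h2 h1).trans (meet l1 l2 h4 h3).symm)

theorem T_pos {i : ℕ} (hi : i ≤ L) (k : Fin 3) {x : ℂ}
    (h : x ∈ segment ℝ (S.p i) (B.a (sd i) k)) : 0 < sg (sd i) * x.re := by
  obtain ⟨s, s0, -, e1⟩ := mem_seg.1 h
  have l1 := S.lt_anchor G hi k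
  have a1 := S.p_re G hi
  rw [abs_le] at a1
  have : 0 < sg (sd i) * (S.p i).re := by
    rcases sg_cases (sd i) with h | h <;> rw [h] at a1 ⊢ <;> linarith [a1.1, a1.2]
  rw [e1]
  simp only [pt, Complex.add_re, Complex.re_ofReal_mul, Complex.sub_re]
  nlinarith

theorem TT {i j : ℕ} (hi : i ≤ L) (hj : j ≤ L) (k k' : Fin 3) (hne' : ¬ (i = j ∧ k = k')) {x y : ℂ}
    (h1 : x ∈ segment ℝ (S.p i) (B.a (sd i) k)) (h2 : x ∈ segment ℝ (S.p j) (B.a (sd j) k'))
    (h3 : y ∈ segment ℝ (S.p i) (B.a (sd i) k)) (h4 : y ∈ segment ℝ (S.p j) (B.a (sd j) k')) :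
    x = y := by
  by_contra hne
  obtain ⟨c1, c2⟩ := col hne h1 h2 h3 h4
  by_cases h : i % 2 = j % 2
  · have e1 := S.same hi hj h (S.flat_anchor G hi k) c1
    subst e1
    have hk : k ≠ k' := fun e => hne' ⟨rfl, e⟩
    have a1 := S.p_re G hi
    have a2 := B.a_re G (sd i) k
    have a2' := B.a_re G (sd i) k'
    have a3 := S.p_im G hi
    have a4 := B.a_im G (sd i) k
    have a4' := B.a_im G (sd i) k'
    have a5 := om_im k
    have a5' := om_im k'
    have a6 := om_im_ne hk
    simp only [cross, Complex.sub_re, Complex.sub_im] at c2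
    generalize (B.a (sd i) k).re = X at *
    generalize (B.a (sd i) k').re = X' at *
    generalize (B.a (sd i) k).im = Y at *
    generalize (B.a (sd i) k').im = Y' at *
    generalize (S.p i).re = P at *
    generalize (S.p i).im = Q at *
    generalize (om k).im = w at *
    generalize (om k').im = w' at *
    rw [abs_le] at a1 a2 a2' a3 a4 a4' a5 a5'
    rw [le_abs] at a6
    have e : (X' - P) * (Y - Y') = (Y' - Q) * (X - X') := by linarith
    have b1 : |(Y' - Q) * (X - X')| ≤ 2 * (2 / 100) := by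
      rw [abs_mul]
      apply mul_le_mul _ _ (abs_nonneg _) (by norm_num)
      · rw [abs_le]
        rcases sg_cases (sd i) with h | h <;> rw [h] at a4' <;> constructor <;>
          linarith [a3.1, a3.2, a4'.1, a4'.2, a5'.1, a5'.2]
      · rw [abs_le]
        constructor <;> linarith [a2.1, a2.2, a2'.1, a2'.2]
    have b2 : 9 / 10 * 1 ≤ |(X' - P) * (Y - Y')| := by
      rw [abs_mul]
      apply mul_le_mul _ _ (by norm_num) (abs_nonneg _)
      · rw [le_abs]
        rcases sg_cases (sd i) with h | h <;> rw [h] at a1 a2'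
        · left; linarith [a1.2, a2'.1]
        · right; linarith [a1.1, a2'.2]
      · rw [le_abs]
        rcases sg_cases (sd i) with h | h <;> rw [h] at a4 a4' <;> rcases a6 with a6 | a6
        · left; linarith [a4.1, a4.2, a4'.1, a4'.2]
        · right; linarith [a4.1, a4.2, a4'.1, a4'.2]
        · right; linarith [a4.1, a4.2, a4'.1, a4'.2]
        · left; linarith [a4.1, a4.2, a4'.1, a4'.2]
    rw [e] at b2
    linarith
  · have l1 := S.T_pos G hi k h1
    have l2 := S.T_pos G hj k' h2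
    have : sg (sd j) = - sg (sd i) := by
      rw [← sg_succ, sd_eq_iff.2 (show j % 2 = (i + 1) % 2 by omega)]
    rw [this] at l2
    linarith

end Sol

/-- vertex labels -/
abbrev Ix (L : ℕ) := Fin (L + 1) ⊕ (Bool × Fin 3)

/-- edge weights -/
def Wf (L : ℕ) : Ix L → Ix L → ℕ
  | Sum.inl i, Sum.inl j => if i.val + 1 = j.val ∨ j.val + 1 = i.val then 1 else 0
  | Sum.inl i, Sum.inr x => if 0 < i.val ∧ i.val < L ∧ sd i = x.1 then 1 else 0
  | Sum.inr x, Sum.inl i => if 0 < i.val ∧ i.val < L ∧ sd i = x.1 then 1 else 0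
  | Sum.inr _, Sum.inr _ => 0

/-- positions -/
def Sol.pos (S : Sol B L) : Ix L → ℂ
  | Sum.inl i => S.p i
  | Sum.inr x => B.a x.1 x.2

theorem Sol.pos_inj (G : Good δ) (S : Sol B L) : Function.Injective S.pos := by
  rintro (i | ⟨b, k⟩) (j | ⟨b', k'⟩) h <;> simp only [Sol.pos] at h
  · have hi : i.val ≤ L := by omega
    have hj : j.val ≤ L := by omega
    by_cases hp : i.val % 2 = j.val % 2
    · have := S.same hi hj hp (v := 1) (by simp [Flat]) (by rw [h]; simp [cross])
      rw [Fin.ext this]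
    · have := S.lt_other G hi hj (by
        rw [← sg_succ, sd_eq_iff.2 (show j.val % 2 = (i.val + 1) % 2 by omega)])
      rw [h] at this
      exact absurd this (lt_irrefl _)
  · have a1 := S.p_re G (show i.val ≤ L by omega)
    have a2 := B.a_re G b' k'
    rw [h] at a1
    rw [abs_le] at a1 a2
    exfalso
    rcases sg_cases (sd i) with h | h <;> rcases sg_cases b' with h' | h' <;>
      rw [h] at a1 <;> rw [h'] at a2 <;> linarith [a1.1, a1.2, a2.1, a2.2]
  · have a1 := S.p_re G (show j.val ≤ L by omega)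
    have a2 := B.a_re G b k
    rw [← h] at a1
    rw [abs_le] at a1 a2
    exfalso
    rcases sg_cases (sd j) with h | h <;> rcases sg_cases b with h' | h' <;>
      rw [h] at a1 <;> rw [h'] at a2 <;> linarith [a1.1, a1.2, a2.1, a2.2]
  · have a1 := B.a_re G b k
    have a2 := B.a_re G b' k'
    have a3 := B.a_im G b k
    have a4 := B.a_im G b' k'
    rw [h] at a1 a3
    rw [abs_le] at a1 a2 a3 a4
    have hb : b = b' := by
      cases b <;> cases b' <;> simp only [sg, if_true, Bool.false_eq_true, if_false] at a1 a2 <;>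
        first | rfl | (exfalso; linarith [a1.1, a1.2, a2.1, a2.2])
    subst hb
    have hk : k = k' := by
      by_contra hk
      have a6 := om_im_ne hk
      rw [le_abs] at a6
      rcases sg_cases b with h | h <;> rw [h] at a3 a4 <;> rcases a6 with a6 | a6 <;>
        linarith [a3.1, a3.2, a4.1, a4.2]
    rw [hk]

/-- canonical description of an edge -/
def Canon (L : ℕ) (x y : Ix L) (i : ℕ) : Option (Fin 3) → Prop
  | none => ∃ h : i < L, x = Sum.inl ⟨i, by omega⟩ ∧ y = Sum.inl ⟨i + 1, by omega⟩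
  | some k => ∃ h : i ≤ L, x = Sum.inl ⟨i, by omega⟩ ∧ y = Sum.inr (sd i, k)

theorem exists_canon {x y : Ix L} (h : Wf L x y ≠ 0) :
    ∃ i o, Canon L x y i o ∨ Canon L y x i o := by
  rcases x with i | ⟨b, k⟩ <;> rcases y with j | ⟨b', k'⟩ <;> simp only [Wf, ne_eq, ite_eq_right_iff,
    one_ne_zero, imp_false, not_not, not_true] at h
  · rcases h with h | h
    · exact ⟨i, none, Or.inl ⟨by omega, rfl, by congr 1; exact Fin.ext h.symm⟩⟩
    · exact ⟨j, none, Or.inr ⟨by omega, rfl, by congr 1; exact Fin.ext h.symm⟩⟩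
  · exact ⟨i, some k', Or.inl ⟨by omega, rfl, by rw [h.2.2]⟩⟩
  · exact ⟨j, some k, Or.inr ⟨by omega, rfl, by rw [h.2.2]⟩⟩

theorem Sol.ovl_canon (G : Good δ) (S : Sol B L) {x y z t : Ix L} {i j : ℕ}
    {o o' : Option (Fin 3)} (h : Canon L x y i o) (h' : Canon L z t j o')
    (hne : ¬ (x = z ∧ y = t)) {p q : ℂ}
    (h1 : p ∈ segment ℝ (S.pos x) (S.pos y)) (h2 : p ∈ segment ℝ (S.pos z) (S.pos t))
    (h3 : q ∈ segment ℝ (S.pos x) (S.pos y)) (h4 : q ∈ segment ℝ (S.pos z) (S.pos t)) :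
    p = q := by
  rcases o with _ | k <;> rcases o' with _ | k' <;> obtain ⟨hi, rfl, rfl⟩ := h <;>
    obtain ⟨hj, rfl, rfl⟩ := h' <;> simp only [Sol.pos] at h1 h2 h3 h4
  · refine S.PP G hi hj ?_ h1 h2 h3 h4
    rintro rfl
    exact hne ⟨rfl, rfl⟩
  · exact S.PT G hi hj k' h1 h2 h3 h4
  · exact S.PT G hj hi k h2 h1 h4 h3
  · refine S.TT G hi hj k k' ?_ h1 h2 h3 h4
    rintro ⟨rfl, rfl⟩
    exact hne ⟨rfl, rfl⟩

/-- the drawing -/
def Sol.drawing (G : Good δ) (S : Sol B L) : Drawing (Ix L) where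
  pos := S.pos
  W := Wf L
  inj := S.pos_inj G
  symm := by
    rintro (i | x) (j | y) <;> simp only [Wf, or_comm]
  diag := by
    rintro (i | x) <;> simp [Wf]
  ovl := by
    intro x y z t hxy hzt hne p q h1 h2 h3 h4
    obtain ⟨i, o, c1 | c1⟩ := exists_canon hxy <;> obtain ⟨j, o', c2 | c2⟩ := exists_canon hzt
    · exact S.ovl_canon G c1 c2 (fun h => hne (Or.inl h)) h1 h2 h3 h4
    · rw [segment_symm] at h2 h4
      exact S.ovl_canon G c1 c2 (fun h => hne (Or.inr h)) h1 h2 h3 h4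
    · rw [segment_symm] at h1 h3
      exact S.ovl_canon G c1 c2 (fun h => hne (Or.inr ⟨h.2, h.1⟩)) h1 h2 h3 h4
    · rw [segment_symm] at h1 h2 h3 h4
      exact S.ovl_canon G c1 c2 (fun h => hne (Or.inl ⟨h.2, h.1⟩)) h1 h2 h3 h4

theorem Sol.balanced (S : Sol B L) (i : Fin (L + 1)) (h0 : 0 < i.val) (h1 : i.val < L) :
    ∑ y, (Wf L (Sum.inl i) y : ℂ) * uv (S.pos (Sum.inl i)) (S.pos y) = 0 := by
  have hb := S.bal i h0 h1
  rw [Fintype.sum_sum_type]
  have e1 : ∑ j : Fin (L + 1), (Wf L (Sum.inl i) (Sum.inl j) : ℂ) *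
      uv (S.pos (Sum.inl i)) (S.pos (Sum.inl j)) =
      e (S.p (i - 1) - S.p i) + e (S.p (i + 1) - S.p i) := by
    rw [Finset.sum_eq_add (⟨i - 1, by omega⟩ : Fin (L + 1)) ⟨i + 1, by omega⟩]
    · simp only [Wf, Sol.pos]
      rw [if_pos (by omega), if_pos (by simp)]
      simp [uv, e]
    · intro h
      have := congrArg Fin.val h
      simp only at this
      omega
    · intro c _ hc
      simp only [Wf]
      rw [if_neg]
      · simp
      · rintro (h | h)
        · exact hc.2 (Fin.ext h.symm)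
        · exact hc.1 (Fin.ext (by simp only; omega))
    · simp
    · simp
  have e2 : ∑ x : Bool × Fin 3, (Wf L (Sum.inl i) (Sum.inr x) : ℂ) *
      uv (S.pos (Sum.inl i)) (S.pos (Sum.inr x)) = ∑ k, e (B.a (sd i) k - S.p i) := by
    rw [Fintype.sum_prod_type, Finset.sum_eq_single (sd i)]
    · refine Finset.sum_congr rfl fun k _ => ?_
      simp [Wf, h0, h1, Sol.pos, uv, e]
    · intro b _ hb
      refine Finset.sum_eq_zero fun k _ => ?_
      simp [Wf, Ne.symm hb]
    · simp
  rw [e1, e2, ← hb, Phi]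
  ring

theorem degree3 (i : Fin (L + 1)) (h0 : 0 < i.val) (h1 : i.val < L) :
    3 ≤ (Finset.univ.filter (fun y => Wf L (Sum.inl i) y ≠ 0)).card := by
  have : (Finset.univ.image (fun k : Fin 3 => (Sum.inr (sd i, k) : Ix L))) ⊆
      Finset.univ.filter (fun y => Wf L (Sum.inl i) y ≠ 0) := by
    intro y hy
    simp only [Finset.mem_image, Finset.mem_univ, true_and] at hy
    obtain ⟨k, rfl⟩ := hy
    rw [Finset.mem_filter]
    refine ⟨Finset.mem_univ _, ?_⟩
    simp only [Wf]
    rw [if_pos ⟨h0, h1, trivial⟩]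
    exact one_ne_zero
  have h2 := Finset.card_le_card this
  rw [Finset.card_image_of_injective _ (fun k k' h => by simpa using h)] at h2
  simpa using h2

theorem unbal (S : Sol B L) (x : Ix L) (σ : ℝ)
    (h : ∀ y, Wf L x y ≠ 0 → σ * (S.pos y).re < σ * (S.pos x).re) (y0 : Ix L) (h0 : Wf L x y0 ≠ 0) :
    ∑ y, (Wf L x y : ℂ) * uv (S.pos x) (S.pos y) ≠ 0 := by
  intro hs
  have h1 := congrArg (fun z : ℂ => σ * z.re) hs
  simp only [Complex.re_sum, Finset.mul_sum, Complex.zero_re, mul_zero] at h1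
  have hterm : ∀ y, Wf L x y ≠ 0 → σ * ((Wf L x y : ℂ) * uv (S.pos x) (S.pos y)).re < 0 := by
    intro y hy
    have a1 := h y hy
    have a2 : S.pos y - S.pos x ≠ 0 := by
      intro e1
      rw [sub_eq_zero.1 e1] at a1
      exact lt_irrefl _ a1
    have a3 : 0 < ‖S.pos y - S.pos x‖ := norm_pos_iff.2 a2
    have a4 : (0 : ℝ) < Wf L x y := by exact_mod_cast Nat.pos_of_ne_zero hy
    rw [← Complex.ofReal_natCast, Complex.re_ofReal_mul, uv, Complex.div_ofReal_re, Complex.sub_re]
    have : σ * ((Wf L x y : ℝ) * (((S.pos y).re - (S.pos x).re) / ‖S.pos y - S.pos x‖)) =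
        (Wf L x y : ℝ) * ((σ * (S.pos y).re - σ * (S.pos x).re) / ‖S.pos y - S.pos x‖) := by ring
    rw [this]
    exact mul_neg_of_pos_of_neg a4 (div_neg_of_neg_of_pos (by linarith) a3)
  have : ∑ y, σ * ((Wf L x y : ℂ) * uv (S.pos x) (S.pos y)).re < ∑ _y : Ix L, (0 : ℝ) := by
    apply Finset.sum_lt_sum
    · intro y _
      by_cases hy : Wf L x y = 0
      · simp [hy]
      · exact (hterm y hy).le
    · exact ⟨y0, Finset.mem_univ _, hterm y0 h0⟩
  rw [h1] at this
  simp at this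

end Pool.Agent.H144Z.Net
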