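import Mathlib

set_option autoImplicit false

noncomputable section

namespace Pool.Agent.H144Z.Net

open Filter Topology

/-- unit vector -/
def e (v : ℂ) : ℂ := v / (‖v‖ : ℂ)

/-- derivative of `e` at a point `u` of norm `r` -/
def M (r : ℝ) (u h : ℂ) : ℂ := (h - u * (((u.re * h.re + u.im * h.im) / r ^ 2 : ℝ) : ℂ)) / (r : ℂ)

theorem est (u0 : ℂ) (r : ℝ) (hr : ‖u0‖ = r) (h0 : 0 < r) (η : ℝ) (hη : 0 < η) :
    ∀ᶠ δ in 𝓝[>] (0 : ℝ), ∀ u v : ℂ, ‖u - u0‖ ≤ δ → ‖v - u0‖ ≤ δ →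
      ‖e u - e v - M r u0 (u - v)‖ ≤ η * ‖u - v‖ := by
  have h1 : HasStrictFDerivAt (fun v : ℂ => ‖v‖ ^ 2) (2 • innerSL ℝ u0) u0 :=
    hasStrictFDerivAt_norm_sq u0
  have hn : ‖u0‖ ^ 2 ≠ 0 := by rw [hr]; positivity
  have h2 := h1.sqrt hn
  have hs : √(‖u0‖ ^ 2) = r := by rw [Real.sqrt_sq (norm_nonneg _), hr]
  have hs0 : √(‖u0‖ ^ 2) ≠ 0 := by rw [hs]; exact h0.ne'
  have h3 := (hasStrictDerivAt_inv hs0).comp_hasStrictFDerivAt u0 h2
  have h4 := h3.smul (hasStrictFDerivAt_id u0)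
  have h5 := h4.isLittleO
  have h6 := (Asymptotics.isLittleO_iff.1 h5) hη
  obtain ⟨ε, hε, h7⟩ := Metric.eventually_nhds_iff.1 h6
  filter_upwards [Ioo_mem_nhdsGT hε] with δ hδ u v hu hv
  have h8 := @h7 (u, v) (by
    rw [Prod.dist_eq, dist_eq_norm, dist_eq_norm]
    exact max_lt (lt_of_le_of_lt hu hδ.2) (lt_of_le_of_lt hv hδ.2))
  have ee : ∀ w : ℂ, (√(‖w‖ ^ 2))⁻¹ • w = e w := by
    intro w
    rw [Real.sqrt_sq (norm_nonneg _), e, Complex.real_smul]
    push_cast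
    ring
  have e1 : e u - e v - M r u0 (u - v) =
      ((Inv.inv ∘ fun y : ℂ => √(‖y‖ ^ 2)) • id) u - ((Inv.inv ∘ fun y : ℂ => √(‖y‖ ^ 2)) • id) v -
        ((Inv.inv ∘ fun y : ℂ => √(‖y‖ ^ 2)) u0 • ContinuousLinearMap.id ℝ ℂ +
            (-(√(‖u0‖ ^ 2) ^ 2)⁻¹ • (1 / (2 * √(‖u0‖ ^ 2))) • 2 • (innerSL ℝ) u0).smulRight (id u0))
          (u - v) := by
    rw [← ee, ← ee]
    congr 1
    simp only [M, Function.comp_apply, id, add_apply,
      smul_apply, ContinuousLinearMap.id_apply,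
      ContinuousLinearMap.smulRight_apply, innerSL_apply_apply, hs, Complex.inner,
      smul_eq_mul, nsmul_eq_mul, Complex.real_smul, Complex.mul_re, Complex.conj_re, Complex.conj_im]
    have : (r : ℂ) ≠ 0 := by exact_mod_cast h0.ne'
    push_cast
    field_simp
    ring
  rw [e1]
  exact h8

theorem M_neg (r : ℝ) (u h : ℂ) : M r (-u) h = M r u h := by
  unfold M
  simp only [Complex.neg_re, Complex.neg_im]
  push_cast
  ring

theorem s3sq : Real.sqrt 3 ^ 2 = 3 := Real.sq_sqrt (by norm_num)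
theorem s3lo : 17 / 10 ≤ Real.sqrt 3 := Real.le_sqrt_of_sq_le (by norm_num)
theorem s3hi : Real.sqrt 3 ≤ 18 / 10 := by
  rw [Real.sqrt_le_left (by norm_num)]; norm_num

/-- directions of the three anchors -/
def om : Fin 3 → ℂ := ![1, ⟨1, Real.sqrt 3⟩, ⟨1, -Real.sqrt 3⟩]

/-- their norms -/
def rr : Fin 3 → ℝ := ![1, 2, 2]

theorem norm_om (k : Fin 3) : ‖om k‖ = rr k := by
  have h3 := s3sq
  have h4 : Real.sqrt 4 = 2 := by
    rw [show (4 : ℝ) = 2 ^ 2 by norm_num, Real.sqrt_sq (by norm_num)]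
  fin_cases k
  · simp [om, rr]
  · simp only [om, rr, Fin.mk_one, Matrix.cons_val_one, Matrix.cons_val_zero]
    rw [Complex.norm_eq_sqrt_sq_add_sq, ← h4]
    congr 1
    simp only []
    linarith
  · simp only [om, rr, Fin.reduceFinMk, Matrix.cons_val]
    rw [Complex.norm_eq_sqrt_sq_add_sq, ← h4]
    congr 1
    simp only []
    linarith

theorem rr_pos (k : Fin 3) : 0 < rr k := by fin_cases k <;> simp [rr]

theorem sumM_re (h : ℂ) : (∑ k, M (rr k) (om k) h).re = 3 / 4 * h.re := by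
  have h3 := s3sq
  simp only [Fin.sum_univ_three, M, om, rr, Matrix.cons_val_zero, Matrix.cons_val_one,
    Matrix.cons_val, Complex.add_re, Complex.div_ofReal_re, Complex.sub_re, Complex.mul_re,
    Complex.ofReal_re, Complex.ofReal_im, Complex.one_re, Complex.one_im]
  ring

theorem sumM_im (h : ℂ) : (∑ k, M (rr k) (om k) h).im = 5 / 4 * h.im := by
  have h3 := s3sq
  simp only [Fin.sum_univ_three, M, om, rr, Matrix.cons_val_zero, Matrix.cons_val_one,
    Matrix.cons_val, Complex.add_im, Complex.div_ofReal_im, Complex.sub_im, Complex.mul_im,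
    Complex.ofReal_re, Complex.ofReal_im, Complex.one_re, Complex.one_im]
  linear_combination (-(h.im) / 4) * h3

theorem M2_re (h : ℂ) : (M 2 2 h).re = 0 := by
  simp only [M, Complex.div_ofReal_re, Complex.sub_re, Complex.mul_re,
    Complex.ofReal_re, Complex.ofReal_im, Complex.re_ofNat, Complex.im_ofNat]
  ring

theorem M2_im (h : ℂ) : (M 2 2 h).im = h.im / 2 := by
  simp only [M, Complex.div_ofReal_im, Complex.sub_im, Complex.mul_im,
    Complex.ofReal_re, Complex.ofReal_im, Complex.re_ofNat, Complex.im_ofNat]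
  ring

theorem M_bound (k : Fin 3) (h : ℂ) : ‖M (rr k) (om k) h‖ ≤ 2 * ‖h‖ := by
  have h1 := Complex.abs_re_le_norm h
  have h2 := Complex.abs_im_le_norm h
  have h3 := s3sq
  have h4 := s3lo
  have h5 := s3hi
  refine (Complex.norm_le_abs_re_add_abs_im _).trans ?_
  rw [abs_le] at h1 h2
  have a1 : Real.sqrt 3 * h.re ≤ 2 * ‖h‖ := by nlinarith [norm_nonneg h]
  have a2 : -(2 * ‖h‖) ≤ Real.sqrt 3 * h.re := by nlinarith [norm_nonneg h]
  have a3 : Real.sqrt 3 * h.im ≤ 2 * ‖h‖ := by nlinarith [norm_nonneg h]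
  have a4 : -(2 * ‖h‖) ≤ Real.sqrt 3 * h.im := by nlinarith [norm_nonneg h]
  have a5 : Real.sqrt 3 * Real.sqrt 3 * h.im = 3 * h.im := by rw [← sq, h3]
  have b : ∀ x y : ℝ, |x| ≤ ‖h‖ → |y| ≤ ‖h‖ → |x| + |y| ≤ 2 * ‖h‖ := by
    intro x y hx hy; linarith
  apply b <;> rw [abs_le] <;> fin_cases k <;>
    simp only [M, om, rr, Matrix.cons_val_zero, Matrix.cons_val_one, Fin.zero_eta, Fin.mk_one,
      Fin.reduceFinMk,
      Matrix.cons_val, Complex.div_ofReal_im, Complex.sub_im, Complex.mul_im,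
      Complex.div_ofReal_re, Complex.sub_re, Complex.mul_re,
      Complex.ofReal_re, Complex.ofReal_im, Complex.one_re, Complex.one_im] <;>
    constructor <;> nlinarith

/-- total force at a chain vertex `p` with anchors `a` and chain neighbours `q`, `r` -/
def Phi (a : Fin 3 → ℂ) (p q r : ℂ) : ℂ := ∑ k, e (a k - p) + e (q - p) + e (r - p)

/-- sign of a side -/
def sg (b : Bool) : ℝ := if b then 1 else -1

theorem M_sg (b : Bool) (r : ℝ) (u h : ℂ) : M r ((sg b : ℂ) * u) h = M r u h := by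
  cases b
  · simp only [sg, Bool.false_eq_true, if_false]
    push_cast
    rw [neg_one_mul, M_neg]
  · simp [sg]

theorem norm_sg (b : Bool) (u : ℂ) : ‖(sg b : ℂ) * u‖ = ‖u‖ := by
  cases b <;> simp [sg]

theorem e_sg (b : Bool) (u : ℂ) : e ((sg b : ℂ) * u) = (sg b : ℂ) * e u := by
  unfold e
  rw [norm_sg]; ring

theorem Phi_base (b : Bool) :
    Phi (fun k => (sg b : ℂ) * (1 + om k)) (sg b) (-(sg b : ℂ)) (-(sg b : ℂ)) = 0 := by
  unfold Phi
  have h1 : ∀ k, (sg b : ℂ) * (1 + om k) - sg b = (sg b : ℂ) * om k := fun k => by ring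
  have h2 : -(sg b : ℂ) - sg b = (sg b : ℂ) * (-2) := by ring
  simp only [h1, h2, e_sg]
  have h3 : e (-2) = -1 := by
    unfold e
    simp
  have h4 : ∑ k, e (om k) = 2 := by
    unfold e
    simp only [norm_om]
    apply Complex.ext <;>
      simp [Fin.sum_univ_three, om, rr] <;> ring
  rw [← Finset.mul_sum, h3, h4]
  ring

/-- the local estimates at scale `δ` -/
structure Good (δ : ℝ) : Prop where
  pos : 0 < δ
  small : δ ≤ 1 / 100
  anchor : ∀ (b : Bool) (k : Fin 3) (u v : ℂ), ‖u - (sg b : ℂ) * om k‖ ≤ 2 * δ →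
    ‖v - (sg b : ℂ) * om k‖ ≤ 2 * δ →
    ‖e u - e v - M (rr k) (om k) (u - v)‖ ≤ 1 / 1000 * ‖u - v‖
  link : ∀ (b : Bool) (u v : ℂ), ‖u - (sg b : ℂ) * (-2)‖ ≤ 2 * δ →
    ‖v - (sg b : ℂ) * (-2)‖ ≤ 2 * δ → ‖e u - e v - M 2 2 (u - v)‖ ≤ 1 / 1000 * ‖u - v‖

theorem exists_good : ∃ δ, Good δ := by
  have h1 : ∀ᶠ δ in 𝓝[>] (0 : ℝ), ∀ (x : Bool × Fin 3) (u v : ℂ),
      ‖u - (sg x.1 : ℂ) * om x.2‖ ≤ δ → ‖v - (sg x.1 : ℂ) * om x.2‖ ≤ δ →
      ‖e u - e v - M (rr x.2) (om x.2) (u - v)‖ ≤ 1 / 1000 * ‖u - v‖ := by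
    rw [eventually_all]
    intro x
    have := est ((sg x.1 : ℂ) * om x.2) (rr x.2) (by rw [norm_sg, norm_om]) (rr_pos _) (1 / 1000)
      (by norm_num)
    simpa only [M_sg] using this
  have h2 : ∀ᶠ δ in 𝓝[>] (0 : ℝ), ∀ (b : Bool) (u v : ℂ),
      ‖u - (sg b : ℂ) * (-2)‖ ≤ δ → ‖v - (sg b : ℂ) * (-2)‖ ≤ δ →
      ‖e u - e v - M 2 2 (u - v)‖ ≤ 1 / 1000 * ‖u - v‖ := by
    rw [eventually_all]
    intro b
    have := est ((sg b : ℂ) * (-2)) 2 (by rw [norm_sg]; simp) (by norm_num) (1 / 1000)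
      (by norm_num)
    simpa only [M_sg, M_neg] using this
  obtain ⟨δ, ⟨a1, a2⟩, a3⟩ := ((h1.and h2).and
    (Ioo_mem_nhdsGT (show (0 : ℝ) < 1 / 100 by norm_num))).exists
  refine ⟨δ / 2, by linarith [a3.1], by linarith [a3.1, a3.2], ?_, ?_⟩
  · intro b k u v hu hv
    exact a1 (b, k) u v (by simpa [mul_div_cancel₀] using hu.trans (le_of_eq (by ring)))
      (by simpa using hv.trans (le_of_eq (by ring)))
  · intro b u v hu hv
    exact a2 b u v (hu.trans (le_of_eq (by ring))) (hv.trans (le_of_eq (by ring)))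

variable {δ : ℝ}

theorem tri2 {x y c d : ℂ} {δ : ℝ} (h1 : ‖x - c‖ ≤ δ) (h2 : ‖y - d‖ ≤ δ) :
    ‖x - y - (c - d)‖ ≤ 2 * δ := by
  have : x - y - (c - d) = (x - c) - (y - d) := by ring
  rw [this]
  linarith [norm_sub_le (x - c) (y - d)]

theorem Good.key (G : Good δ) (b : Bool) (a : Fin 3 → ℂ)
    (ha : ∀ k, ‖a k - (sg b : ℂ) * (1 + om k)‖ ≤ δ) {p q r p' q' r' : ℂ}
    (hp : ‖p - sg b‖ ≤ δ) (hq : ‖q - (-(sg b : ℂ))‖ ≤ δ) (hr : ‖r - (-(sg b : ℂ))‖ ≤ δ)
    (hp' : ‖p' - sg b‖ ≤ δ) (hq' : ‖q' - (-(sg b : ℂ))‖ ≤ δ) (hr' : ‖r' - (-(sg b : ℂ))‖ ≤ δ) :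
    |(Phi a p q r - Phi a p' q' r').re + 3 / 4 * (p - p').re| ≤
        1 / 1000 * (5 * ‖p - p'‖ + ‖q - q'‖ + ‖r - r'‖) ∧
      |(Phi a p q r - Phi a p' q' r').im + 9 / 4 * (p - p').im - (q - q').im / 2 -
        (r - r').im / 2| ≤ 1 / 1000 * (5 * ‖p - p'‖ + ‖q - q'‖ + ‖r - r'‖) := by
  have c1 : ∀ k, (sg b : ℂ) * om k = (sg b : ℂ) * (1 + om k) - sg b := fun k => by ring
  have c2 : (sg b : ℂ) * (-2) = -(sg b : ℂ) - sg b := by ring
  have A : ∀ k, ‖e (a k - p) - e (a k - p') - M (rr k) (om k) (p' - p)‖ ≤ 1 / 1000 * ‖p - p'‖ := by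
    intro k
    have := G.anchor b k (a k - p) (a k - p') (by rw [c1]; exact tri2 (ha k) hp)
      (by rw [c1]; exact tri2 (ha k) hp')
    rw [show a k - p - (a k - p') = p' - p by ring] at this
    rwa [norm_sub_rev p p']
  have B : ∀ s s' : ℂ, ‖s - (-(sg b : ℂ))‖ ≤ δ → ‖s' - (-(sg b : ℂ))‖ ≤ δ →
      ‖e (s - p) - e (s' - p') - M 2 2 ((s - s') - (p - p'))‖ ≤
        1 / 1000 * (‖s - s'‖ + ‖p - p'‖) := by
    intro s s' hs hs'
    have := G.link b (s - p) (s' - p') (by rw [c2]; exact tri2 hs hp)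
      (by rw [c2]; exact tri2 hs' hp')
    rw [show s - p - (s' - p') = (s - s') - (p - p') by ring] at this
    refine this.trans ?_
    have := norm_sub_le (s - s') (p - p')
    linarith
  have hE : ‖Phi a p q r - Phi a p' q' r' - (∑ k, M (rr k) (om k) (p' - p) +
      M 2 2 ((q - q') - (p - p')) + M 2 2 ((r - r') - (p - p')))‖ ≤
      1 / 1000 * (5 * ‖p - p'‖ + ‖q - q'‖ + ‖r - r'‖) := by
    have e1 : Phi a p q r - Phi a p' q' r' - (∑ k, M (rr k) (om k) (p' - p) +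
        M 2 2 ((q - q') - (p - p')) + M 2 2 ((r - r') - (p - p'))) =
        (e (a 0 - p) - e (a 0 - p') - M (rr 0) (om 0) (p' - p)) +
        (e (a 1 - p) - e (a 1 - p') - M (rr 1) (om 1) (p' - p)) +
        (e (a 2 - p) - e (a 2 - p') - M (rr 2) (om 2) (p' - p)) +
        (e (q - p) - e (q' - p') - M 2 2 ((q - q') - (p - p'))) +
        (e (r - p) - e (r' - p') - M 2 2 ((r - r') - (p - p'))) := by
      simp only [Phi, Fin.sum_univ_three]
      ring
    rw [e1]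
    have := A 0
    have := A 1
    have := A 2
    have := B q q' hq hq'
    have := B r r' hr hr'
    refine (norm_add_le _ _).trans ?_
    refine (add_le_add_left (norm_add_le _ _) _).trans ?_
    refine (add_le_add_left (add_le_add_left (norm_add_le _ _) _) _).trans ?_
    refine (add_le_add_left (add_le_add_left (add_le_add_left (norm_add_le _ _) _) _) _).trans ?_
    linarith
  constructor
  · refine le_trans (le_of_eq ?_) ((Complex.abs_re_le_norm _).trans hE)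
    congr 1
    simp only [Complex.sub_re, Complex.add_re, sumM_re, M2_re]
    ring
  · refine le_trans (le_of_eq ?_) ((Complex.abs_im_le_norm _).trans hE)
    congr 1
    simp only [Complex.sub_im, Complex.add_im, sumM_im, M2_im]
    ring

theorem Good.base (G : Good δ) (b : Bool) (a : Fin 3 → ℂ) {ρ : ℝ} (hρ : ρ ≤ δ)
    (ha : ∀ k, ‖a k - (sg b : ℂ) * (1 + om k)‖ ≤ ρ) :
    ‖Phi a (sg b) (-(sg b : ℂ)) (-(sg b : ℂ))‖ ≤ 9 * ρ := by
  have c1 : ∀ k, (sg b : ℂ) * om k = (sg b : ℂ) * (1 + om k) - sg b := fun k => by ring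
  have hδ := G.pos
  have A : ∀ k, ‖e (a k - sg b) - e ((sg b : ℂ) * (1 + om k) - sg b)‖ ≤ 3 * ρ := by
    intro k
    have := G.anchor b k (a k - sg b) ((sg b : ℂ) * (1 + om k) - sg b)
      (by rw [c1]; exact tri2 ((ha k).trans hρ) (by simp [hδ.le]))
      (by rw [c1]; simp [hδ.le])
    rw [show a k - sg b - ((sg b : ℂ) * (1 + om k) - sg b) = a k - (sg b : ℂ) * (1 + om k) by ring]
      at this
    have h2 := M_bound k (a k - (sg b : ℂ) * (1 + om k))
    have h3 := norm_add_le (e (a k - sg b) - e ((sg b : ℂ) * (1 + om k) - sg b) -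
      M (rr k) (om k) (a k - (sg b : ℂ) * (1 + om k))) (M (rr k) (om k) (a k - (sg b : ℂ) * (1 + om k)))
    rw [sub_add_cancel] at h3
    have h4 := ha k
    have h5 := norm_nonneg (a k - (sg b : ℂ) * (1 + om k))
    linarith
  have e1 : Phi a (sg b) (-(sg b : ℂ)) (-(sg b : ℂ)) =
      (e (a 0 - sg b) - e ((sg b : ℂ) * (1 + om 0) - sg b)) +
      (e (a 1 - sg b) - e ((sg b : ℂ) * (1 + om 1) - sg b)) +
      (e (a 2 - sg b) - e ((sg b : ℂ) * (1 + om 2) - sg b)) := by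
    have := Phi_base b
    simp only [Phi, Fin.sum_univ_three] at this ⊢
    linear_combination this
  rw [e1]
  have := A 0
  have := A 1
  have := A 2
  refine (norm_add_le _ _).trans ?_
  refine (add_le_add_left (norm_add_le _ _) _).trans ?_
  linarith

end Pool.Agent.H144Z.Net
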