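import Pool.Agent.H144Z.Net.Draw
import Pool.Agent.H144Z.Net.Defs

set_option autoImplicit false

noncomputable section
open scoped Classical

namespace Pool.Agent.H144Z.Net

open Pool.Agent.Helper544.Planar

variable {δ : ℝ}

/-- the set of boundary points -/
def Bd.S (B : Bd δ) : Finset ℂ :=
  insert B.t1 (insert B.t2 (Finset.univ.image (fun x : Bool × Fin 3 => B.a x.1 x.2)))

theorem Bd.fillable (G : Good δ) (B : Bd δ) : UnboundedlyFillable B.S := by
  intro N
  obtain ⟨L, hL, hL4, hLN⟩ : ∃ L : ℕ, L % 2 = 0 ∧ 4 ≤ L ∧ N + 2 ≤ L :=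
    ⟨2 * N + 4, by omega, by omega, by omega⟩
  obtain ⟨p, p0, pL, h1, h2, h3⟩ := chain_full G B L hL hL4
  let S : Sol B L := ⟨p, p0, pL, h1, h2, h3⟩
  let D := S.drawing G
  have hW : ∀ x y, D.W x y ≤ 1 := by
    rintro (i | x) (j | y) <;> simp only [D, Sol.drawing, Wf] <;> (try split_ifs) <;> norm_num
  have hm : ∀ a b, D.m a b ≠ 0 → D.m a b = 1 := by
    intro a b h
    have := D.m_le hW a b
    omega
  let Gn : GeodesicNet :=
    { V := D.V
      Adj := fun a b => D.m a b ≠ 0
      symm := fun a b h => by rw [D.m_symm]; exact h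
      edge_ends := fun a b h => D.edge_mem h
      edges_meet := by
        intro a b c d hab hcd hne z hz hz'
        refine D.planar hab hcd ?_ hz hz'
        rintro (⟨h1, h2⟩ | ⟨h1, h2⟩)
        · exact hne (by rw [h1, h2])
        · exact hne (by rw [h1, h2]; exact Sym2.eq_swap)
      no_vertex_inside := fun a b h c hc => D.no_interior h hc }
  have himb : ∀ v, Gn.imb v = ∑ w ∈ D.V, (D.m v w : ℂ) * uv v w := by
    intro v
    unfold GeodesicNet.imb GeodesicNet.neighbors
    rw [Finset.sum_filter]
    refine Finset.sum_congr rfl fun w _ => ?_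
    by_cases h : D.m v w ≠ 0
    · rw [if_pos (show Gn.Adj v w from h), hm v w h]; simp [uv]
    · rw [if_neg (show ¬ Gn.Adj v w from h)]
      push Not at h
      rw [h]; simp
  have hdeg : ∀ v, (Gn.neighbors v).card = (D.V.filter (fun w => D.m v w ≠ 0)).card := by
    intro v
    refine congrArg Finset.card ?_
    ext w
    simp only [GeodesicNet.neighbors, Finset.mem_filter]
    exact Iff.rfl
  have hball : ∀ i : Fin (L + 1), 0 < i.val → i.val < L → Gn.IsBalanced (D.pos (Sum.inl i)) := by
    intro i h0 h1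
    constructor
    · rw [himb, D.imb_pos]
      exact S.balanced i h0 h1
    · rw [hdeg]
      exact le_trans (degree3 i h0 h1) (D.degree_pos _)
  have hcross : ∀ v ∈ D.V, v ∉ Set.range D.pos → Gn.IsBalanced v := by
    intro v hv hv'
    constructor
    · rw [himb]; exact D.imb_cross hv hv'
    · rw [hdeg]; exact le_trans (by norm_num) (D.degree_cross hv hv')
  have hunb : ∀ x : Bool × Fin 3, ¬ Gn.IsBalanced (D.pos (Sum.inr x)) := by
    rintro ⟨b, k⟩ h
    have h1 := h.1
    rw [himb, D.imb_pos] at h1
    obtain ⟨i, hi0, hiL, hib⟩ : ∃ i : ℕ, 0 < i ∧ i < L ∧ sd i = b := by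
      cases b
      · exact ⟨1, by omega, by omega, by simp [sd]⟩
      · exact ⟨2, by omega, by omega, by simp [sd]⟩
    refine unbal S (Sum.inr (b, k)) (sg b) ?_ (Sum.inl ⟨i, by omega⟩) ?_ h1
    · rintro (j | y) hy
      · simp only [Wf, ne_eq, ite_eq_right_iff, one_ne_zero, imp_false, not_not] at hy
        obtain ⟨-, a2, rfl⟩ := hy
        exact S.lt_anchor G a2.le k
      · exact absurd rfl hy
    · simp only [Wf]
      rw [if_pos ⟨hi0, hiL, hib⟩]
      exact one_ne_zero
  have hend : ∀ i : Fin (L + 1), (i.val = 0 ∨ i.val = L) → ¬ Gn.IsBalanced (D.pos (Sum.inl i)) := by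
    intro i hi h
    have h1 := h.1
    rw [himb, D.imb_pos] at h1
    obtain ⟨j, hj, hij⟩ : ∃ j : ℕ, j ≤ L ∧ (i.val + 1 = j ∨ j + 1 = i.val) := by
      rcases hi with hi | hi
      · exact ⟨1, by omega, by omega⟩
      · exact ⟨L - 1, by omega, by omega⟩
    refine unbal S (Sum.inl i) (sg (sd i)) ?_ (Sum.inl ⟨j, by omega⟩) ?_ h1
    · rintro (j | y) hy
      · simp only [Wf, ne_eq, ite_eq_right_iff, one_ne_zero, imp_false, not_not] at hy
        refine S.lt_other G (by omega) (by omega) ?_
        rw [← sg_succ, sd_eq_iff.2 (show j.val % 2 = (i.val + 1) % 2 by omega)]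
      · simp only [Wf, ne_eq, ite_eq_right_iff, one_ne_zero, imp_false, not_not] at hy
        omega
    · simp only [Wf]
      rw [if_pos hij]
      exact one_ne_zero
  refine ⟨Gn, ?_, ?_⟩
  · ext v
    simp only [GeodesicNet.unbalancedVertices, Finset.mem_filter, Bd.S, Finset.mem_insert,
      Finset.mem_image, Finset.mem_univ, true_and]
    constructor
    · rintro ⟨hv, hnb⟩
      by_cases hvr : v ∈ Set.range D.pos
      · obtain ⟨x, rfl⟩ := hvr
        rcases x with i | x
        · by_cases a0 : i.val = 0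
          · left
            change p i = B.t1
            rw [a0, p0]
          · by_cases a1 : i.val = L
            · right; left
              change p i = B.t2
              rw [a1, pL]
            · exact absurd (hball i (by omega) (by omega)) hnb
        · exact Or.inr (Or.inr ⟨x, rfl⟩)
      · exact absurd (hcross v hv hvr) hnb
    · rintro (rfl | rfl | ⟨x, rfl⟩)
      · rw [← p0]
        exact ⟨D.pos_mem (Sum.inl ⟨0, by omega⟩), hend ⟨0, by omega⟩ (Or.inl rfl)⟩
      · rw [← pL]
        exact ⟨D.pos_mem (Sum.inl ⟨L, by omega⟩), hend ⟨L, by omega⟩ (Or.inr rfl)⟩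
      · exact ⟨D.pos_mem (Sum.inr x), hunb x⟩
  · have hsub : (Finset.univ : Finset (Fin (N + 1))).image
        (fun i => D.pos (Sum.inl ⟨i.val + 1, by omega⟩)) ⊆ Gn.balancedVertices := by
      intro v hv
      simp only [Finset.mem_image, Finset.mem_univ, true_and] at hv
      obtain ⟨i, rfl⟩ := hv
      simp only [GeodesicNet.balancedVertices, Finset.mem_filter]
      exact ⟨D.pos_mem _, hball _ (by simp) (by simp only; omega)⟩
    have hc := Finset.card_le_card hsub
    rw [Finset.card_image_of_injective] at hc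
    · simp at hc
      omega
    · intro i i' h
      have := Sum.inl.inj (D.inj h)
      have := congrArg Fin.val this
      simp only at this
      exact Fin.ext (by omega)

/-- labels of the eight boundary points as vertices of the chain of length four -/
def lab : Fin 8 → Ix 4 :=
  ![Sum.inl 0, Sum.inl 4, Sum.inr (true, 0), Sum.inr (true, 1), Sum.inr (true, 2),
    Sum.inr (false, 0), Sum.inr (false, 1), Sum.inr (false, 2)]

theorem lab_inj : Function.Injective lab := by decide

/-- position of an anchor in the tuple -/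
def idx (b : Bool) (k : Fin 3) : Fin 8 := if b then ⟨k + 2, by omega⟩ else ⟨k + 5, by omega⟩

theorem main : ∃ U : Set (Fin 8 → ℂ), IsOpen U ∧ U.Nonempty ∧
    ∀ s ∈ U, Function.Injective s ∧ UnboundedlyFillable (Finset.univ.image s) := by
  obtain ⟨δ, G⟩ := exists_good
  have hδ := G.pos
  let c : Fin 8 → ℂ := ![⟨1, 9 / 10 * δ⟩, ⟨1, -(9 / 10 * δ)⟩, 1 + om 0, 1 + om 1, 1 + om 2,
    -(1 + om 0), -(1 + om 1), -(1 + om 2)]
  refine ⟨Metric.ball c (δ / 200), Metric.isOpen_ball, Metric.nonempty_ball.2 (by linarith), ?_⟩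
  intro s hs
  have hs' : ∀ i, ‖s i - c i‖ ≤ δ / 200 := by
    intro i
    rw [Metric.mem_ball, dist_eq_norm] at hs
    exact (norm_le_pi_norm (s - c) i).trans hs.le
  let B : Bd δ :=
    { a := fun b k => s (idx b k)
      t1 := s 0
      t2 := s 1
      ha := by
        intro b k
        have := hs' (idx b k)
        cases b <;> fin_cases k <;> simpa [idx, c, sg] using this
      h1 := hs' 0
      h2 := hs' 1 }
  constructor
  · obtain ⟨p, p0, pL, h1, h2, h3⟩ := chain_full G B 4 (by norm_num) le_rfl
    let S : Sol B 4 := ⟨p, p0, pL, h1, h2, h3⟩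
    have e1 : s = S.pos ∘ lab := by
      funext i
      fin_cases i
      · exact p0.symm
      · exact pL.symm
      all_goals rfl
    rw [e1]
    exact (S.pos_inj G).comp lab_inj
  · have e1 : Finset.univ.image s = B.S := by
      ext v
      simp only [Bd.S, Finset.mem_insert, Finset.mem_image, Finset.mem_univ, true_and]
      constructor
      · rintro ⟨i, rfl⟩
        fin_cases i
        · exact Or.inl rfl
        · exact Or.inr (Or.inl rfl)
        · exact Or.inr (Or.inr ⟨(true, 0), rfl⟩)
        · exact Or.inr (Or.inr ⟨(true, 1), rfl⟩)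
        · exact Or.inr (Or.inr ⟨(true, 2), rfl⟩)
        · exact Or.inr (Or.inr ⟨(false, 0), rfl⟩)
        · exact Or.inr (Or.inr ⟨(false, 1), rfl⟩)
        · exact Or.inr (Or.inr ⟨(false, 2), rfl⟩)
      · rintro (rfl | rfl | ⟨x, rfl⟩)
        · exact ⟨0, rfl⟩
        · exact ⟨1, rfl⟩
        · exact ⟨idx x.1 x.2, rfl⟩
    rw [e1]
    exact B.fillable G

end Pool.Agent.H144Z.Net
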